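import Pool.Agent.R299.Osc.Limit

/-!
# MP_38ba9c_an: `M_d = L_d = 1 + √d`

Complete answer to Q1: for every `d ≥ 1` (in particular every `d ≥ 2`) and every `c > 0`,
`M_d = 1 + √d` and `L_d = 1 + √d`.

Upper bound: with `y'' + c y' + l y = 0`, `y(0) = 0`, `y'(0) = 1` and `g = y'`, the part of `|g(s)|`
above `exp(-cs)` has integral at most `1 / c` for every `l > 0`.  Lower bound: diagonal matrices
with widely separated eigenvalues and an explicit periodic forcing.
-/

namespace Pool.Agent.Results.MP_38ba9c_an.Sharp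

open Pool.Agent.R299.Osc

theorem result (d : ℕ) (hd : 1 ≤ d) :
    (∀ c : ℝ, 0 < c → M d c = ENNReal.ofReal (1 + √(d : ℝ))) ∧
      L d = ENNReal.ofReal (1 + √(d : ℝ)) :=
  ⟨fun _ hc => M_eq hd hc, L_eq hd⟩

end Pool.Agent.Results.MP_38ba9c_an.Sharp
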